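import Pool.Agent.helper62.QU.Spec

/-! # QU: row ABS -/

set_option autoImplicit false

open scoped MatrixGroups ContDiff Topology UpperHalfPlane
open UpperHalfPlane MeasureTheory Filter Set

namespace Pool.Agent.QU

/-- an invariant function which is orthogonal to all invariant functions is `0` -/
theorem ABS_zero {Γ : Subgroup SL(2, ℝ)} {F : Set ℍ} (h11 : BDD_stmt) (hΓ : SurfaceGroup Γ)
    (hF : NiceDom Γ F) {g : ℍ → ℝ} (hg : Inv Γ g) (h : ∫ z in F, g z * g z = 0) : ∀ z, g z = 0 := by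
  refine (h11 Γ F g hΓ hF hg).2.2.2 ?_
  rw [← h]
  refine integral_congr_ae (Filter.Eventually.of_forall fun z => ?_)
  show g z ^ 2 = g z * g z
  ring

theorem ABS_mass {fam : ℝ → ℝ → ℝ} (hfam : Fam fam) {η : ℝ} (hη : 0 < η) (g : ℍ → ℝ) (m : ℝ)
    (hm : ∀ z, |g z| ≤ m) (z : ℍ) : |conv (fam η) g z| ≤ m := by
  have h1 := hfam.mass η hη z
  have hint : Integrable (fun w : ℍ => fam η (tt z w)) := by
    by_contra h
    rw [integral_undef h] at h1
    exact zero_ne_one h1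
  unfold conv
  have h2 : ‖∫ w : ℍ, fam η (tt z w) • g w‖ ≤ ∫ w : ℍ, fam η (tt z w) * m := by
    refine norm_integral_le_of_norm_le (hint.mul_const m) (Filter.Eventually.of_forall fun w => ?_)
    rw [norm_smul, Real.norm_eq_abs, Real.norm_eq_abs]
    have h3 : 0 ≤ fam η (tt z w) := hfam.nonneg η hη _
    rw [abs_of_nonneg h3]
    exact mul_le_mul_of_nonneg_left (hm w) h3
  rw [integral_mul_const, h1, one_mul] at h2
  exact h2

theorem ABS_core (h3 : LAK_stmt) (h4 : CVS_stmt) (h5 : CVB_stmt) (h6 : COM_stmt)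
    (h9 : DOM_stmt) (h10 : DOB_stmt) (h11 : BDD_stmt) (h12 : SYC_stmt) (h13 : FUB_stmt)
    (Γ : Subgroup SL(2, ℝ)) (δ κ' : (ℍ → ℝ) → ℝ) (R : ℝ) (hΓ : SurfaceGroup Γ)
    (hδ : BFun Γ δ) (hκ : BFun Γ κ') (hR : 0 < R)
    (hyp : ∀ (κ : ℝ → ℝ) (f : ℍ → ℝ), RK κ → Inv Γ f →
      δ (lap (conv κ f)) = 4 * R * κ' (conv κ f) + 4 * R * δ (conv κ f) ∧
      κ' (lap (conv κ f)) = 4 * R * κ' (conv κ f) - δ (conv κ f))
    (k : ℝ → ℝ) (hk : RK k) (f : ℍ → ℝ) (hf : Inv Γ f) :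
    δ (conv k (conv k f)) = 0 ∧ κ' (conv k (conv k f)) = 0 := by
  obtain ⟨F, hF⟩ := h9 Γ hΓ
  obtain ⟨-, -, -, l4, -⟩ := h3
  obtain ⟨-, -, -, -, -, -, -, b8⟩ := h5 ℝ
  have hL := l4 k hk
  have hB : ∀ g, Inv Γ g → Inv Γ (conv k g) := fun g hg => b8 Γ k g hk hg
  have hA : ∀ g, Inv Γ g → Inv Γ (conv (LL k) g) := fun g hg => b8 Γ (LL k) g hL hg
  have hlap : ∀ g, Inv Γ g → lap (conv k g) = conv (LL k) g := by
    intro g hg
    funext z
    exact (h4 ℝ k g hk hg.1).2.2.2 z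
  have hAB : ∀ g, Inv Γ g → conv k (conv (LL k) g) = conv (LL k) (conv k g) := by
    intro g hg
    funext z
    have e := h6 ℝ k (conv k g) hk (h4 ℝ k g hk hg.1).1 z
    rw [hlap g hg] at e
    exact e
  obtain ⟨p, hp, hpf⟩ := h13 Γ F k δ hΓ hF hk hδ
  obtain ⟨q, hq, hqf⟩ := h13 Γ F k κ' hΓ hF hk hκ
  -- the relations
  have hrel : ∀ g, Inv Γ g →
      (∫ z in F, conv (LL k) p z * g z) =
        4 * R * (∫ z in F, conv k q z * g z) + 4 * R * ∫ z in F, conv k p z * g z := by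
    intro g hg
    have e1 := (hyp k (conv k g) hk (hB g hg)).1
    rw [hlap _ (hB g hg), ← hAB g hg, hpf _ (hA g hg), hpf _ (hB g hg), hqf _ (hB g hg)] at e1
    rw [h12 Γ F (LL k) p g hΓ hF hL hp hg, h12 Γ F k q g hΓ hF hk hq hg,
      h12 Γ F k p g hΓ hF hk hp hg]
    exact e1
  have hrel2 : ∀ g, Inv Γ g →
      (∫ z in F, conv (LL k) q z * g z) =
        4 * R * (∫ z in F, conv k q z * g z) - ∫ z in F, conv k p z * g z := by
    intro g hg
    have e1 := (hyp k (conv k g) hk (hB g hg)).2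
    rw [hlap _ (hB g hg), ← hAB g hg, hqf _ (hA g hg), hpf _ (hB g hg), hqf _ (hB g hg)] at e1
    rw [h12 Γ F (LL k) q g hΓ hF hL hq hg, h12 Γ F k q g hΓ hF hk hq hg,
      h12 Γ F k p g hΓ hF hk hp hg]
    exact e1
  -- `∫ (Ap)(Bq) = ∫ (Bp)(Aq)`
  have hsw : (∫ z in F, conv (LL k) p z * conv k q z) = ∫ z in F, conv (LL k) q z * conv k p z := by
    calc (∫ z in F, conv (LL k) p z * conv k q z) = ∫ z in F, p z * conv (LL k) (conv k q) z :=
          h12 Γ F (LL k) p (conv k q) hΓ hF hL hp (hB q hq)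
      _ = ∫ z in F, p z * conv k (conv (LL k) q) z := by rw [hAB q hq]
      _ = ∫ z in F, conv k p z * conv (LL k) q z :=
          (h12 Γ F k p (conv (LL k) q) hΓ hF hk hp (hA q hq)).symm
      _ = ∫ z in F, conv (LL k) q z * conv k p z := by
          refine integral_congr_ae (Filter.Eventually.of_forall fun z => ?_)
          exact mul_comm _ _
  have e1 := hrel (conv k q) (hB q hq)
  have e2 := hrel2 (conv k p) (hB p hp)
  have e3 : (∫ z in F, conv k p z * conv k q z) = ∫ z in F, conv k q z * conv k p z := by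
    refine integral_congr_ae (Filter.Eventually.of_forall fun z => ?_)
    exact mul_comm _ _
  have n1 : 0 ≤ ∫ z in F, conv k q z * conv k q z := integral_nonneg fun z => mul_self_nonneg _
  have n2 : 0 ≤ ∫ z in F, conv k p z * conv k p z := integral_nonneg fun z => mul_self_nonneg _
  have e4 : 4 * R * (∫ z in F, conv k q z * conv k q z) + ∫ z in F, conv k p z * conv k p z = 0 := by
    rw [hsw, e2, e3] at e1
    linarith
  have n3 : 0 ≤ 4 * R * ∫ z in F, conv k q z * conv k q z := by positivity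
  have z2 : (∫ z in F, conv k p z * conv k p z) = 0 := by linarith
  have z1 : (∫ z in F, conv k q z * conv k q z) = 0 := by
    have h : 4 * R * ∫ z in F, conv k q z * conv k q z = 0 := by linarith
    rcases mul_eq_zero.1 h with h | h
    · exfalso
      linarith
    · exact h
  have hp0 := ABS_zero h11 hΓ hF (hB p hp) z2
  have hq0 := ABS_zero h11 hΓ hF (hB q hq) z1
  constructor
  · rw [hpf _ (hB f hf), ← h12 Γ F k p f hΓ hF hk hp hf]
    simp only [hp0, zero_mul, integral_zero]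
  · rw [hqf _ (hB f hf), ← h12 Γ F k q f hΓ hF hk hq hf]
    simp only [hq0, zero_mul, integral_zero]

theorem ABS_lim {Γ : Subgroup SL(2, ℝ)} {α : (ℍ → ℝ) → ℝ} (hα : BFun Γ α) (f : ℍ → ℝ) (hf : Inv Γ f)
    (h : ∀ ε : ℝ, 0 < ε → ∃ g : ℍ → ℝ, Inv Γ g ∧ α g = 0 ∧ ∀ z, |f z - g z| ≤ ε) : α f = 0 := by
  obtain ⟨C, hC⟩ := hα.bound
  have key : ∀ ε : ℝ, 0 < ε → |α f| ≤ C * ε := by
    intro ε hε
    obtain ⟨g, hg, hg0, hfg⟩ := h ε hε
    have hinv : Inv Γ (fun z => (-1) * g z) := by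
      refine ⟨continuous_const.mul hg.1, fun γ z => ?_⟩
      show (-1) * g (γ • z) = (-1) * g z
      rw [hg.2]
    have e1 := hα.add f (fun z => (-1) * g z) hf hinv
    have e2 := hα.smul (-1) g hg
    rw [e2, hg0, mul_zero, add_zero] at e1
    rw [← e1]
    refine hC _ ε ?_ fun z => ?_
    · refine ⟨hf.1.add hinv.1, fun γ z => ?_⟩
      show f (γ • z) + (-1) * g (γ • z) = f z + (-1) * g z
      rw [hf.2, hg.2]
    · have e3 : f z + -1 * g z = f z - g z := by ring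
      rw [e3]
      exact hfg z
  by_contra hne
  have hpos : 0 < |α f| := abs_pos.2 hne
  have h1 := key 1 one_pos
  have hCpos : 0 < C := by linarith
  have h2 := key (|α f| / (2 * C)) (by positivity)
  have h3 : C * (|α f| / (2 * C)) = |α f| / 2 := by
    field_simp
  rw [h3] at h2
  linarith

theorem ABS (h1 : TTT_stmt) (h2 : CA1_stmt) (h3 : LAK_stmt) (h4 : CVS_stmt) (h5 : CVB_stmt)
    (h6 : COM_stmt) (h7 : KFM_stmt) (h8 : APX_stmt) (h9 : DOM_stmt) (h10 : DOB_stmt) (h11 : BDD_stmt)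
    (h12 : SYC_stmt) (h13 : FUB_stmt) : ABS_stmt := by
  intro Γ δ κ' R hΓ hδ hκ hR hyp f hf
  obtain ⟨F, hF⟩ := h9 Γ hΓ
  obtain ⟨fam, hfam⟩ := h7
  have hUC := (h11 Γ F f hΓ hF hf).2.1
  have hh5 := h5 ℝ
  obtain ⟨-, b2, -, -, -, -, -, b8⟩ := hh5
  have happ : ∀ ε : ℝ, 0 < ε → ∃ η : ℝ, 0 < η ∧
      ∀ z, |f z - conv (fam η) (conv (fam η) f) z| ≤ ε := by
    intro ε hε
    obtain ⟨η, hη, hη2⟩ := (h8 fam hfam).2 f hUC (ε / 2) (by positivity)
    refine ⟨η, hη, fun z => ?_⟩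
    have a1 := hη2 η hη le_rfl
    have hrk := hfam.rk η hη
    have hBf := b8 Γ (fam η) f hrk hf
    have a2 := b2 (fam η) (conv (fam η) f) f 1 (-1) z hrk hBf.1 hf.1
    have a3 : ∀ w, |(1 : ℝ) • conv (fam η) f w + (-1 : ℝ) • f w| ≤ ε / 2 := by
      intro w
      have : (1 : ℝ) • conv (fam η) f w + (-1 : ℝ) • f w = conv (fam η) f w - f w := by
        simp only [smul_eq_mul]
        ring
      rw [this]
      exact a1 w
    have a4 := ABS_mass hfam hη (fun w => (1 : ℝ) • conv (fam η) f w + (-1 : ℝ) • f w) (ε / 2) a3 z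
    rw [a2] at a4
    have a5 := a1 z
    simp only [smul_eq_mul] at a4
    rw [abs_le] at a4 a5 ⊢
    constructor <;> linarith [a4.1, a4.2, a5.1, a5.2]
  have hcore := fun (η : ℝ) (hη : 0 < η) => ABS_core h3 h4 h5 h6 h9 h10 h11 h12 h13 Γ δ κ' R hΓ hδ hκ hR hyp
    (fam η) (hfam.rk η hη) f hf
  constructor
  · refine ABS_lim hδ f hf fun ε hε => ?_
    obtain ⟨η, hη, h⟩ := happ ε hε
    have hrk := hfam.rk η hη
    exact ⟨_, b8 Γ (fam η) _ hrk (b8 Γ (fam η) f hrk hf), (hcore η hη).1, h⟩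
  · refine ABS_lim hκ f hf fun ε hε => ?_
    obtain ⟨η, hη, h⟩ := happ ε hε
    have hrk := hfam.rk η hη
    exact ⟨_, b8 Γ (fam η) _ hrk (b8 Γ (fam η) f hrk hf), (hcore η hη).2, h⟩

end Pool.Agent.QU
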